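import Pool.Agent.Helper78_Hyp.Main
import Pool.Agent.Helper30_Sph.Main

/-!
# The Singer conjecture for hyperbolizations of homology manifolds, without hypotheses
-/

namespace Pool.Agent.Hyp

open Pool.Agent.Sph

/-- The Singer conjecture for the hyperbolization of a homology manifold. -/
theorem hyp_singer_manifold {U : Type} [Fintype U] {T : PreAbstractSimplicialComplex U}
    [Fintype T.faces] {n : ℕ} (h : HomologyManifold T n) {i : ℕ} (hi : 2 * i ≠ n) :
    Special.HomologyVanishes (hyp T) i :=
  hyp_singer_of finStmt h hi

end Pool.Agent.Hyp
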