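import Pool.Agent.Helper30_Hyp.Defs
import Pool.Agent.Helper30_Sph.Defs

/-!
# Triangulated homology manifolds

Let `T` be a finite simplicial complex.  It is a homology manifold of dimension `n` over the field
with two elements if the link of every simplex `σ` has the reduced homology, modulo two, of the
sphere of dimension `n - |σ|`.  Every triangulation of a closed topological manifold of dimension
`n` has this property.
-/

namespace Pool.Agent.Hyp

open Pool.Agent.Sph
open Classical

variable {U : Type} [Fintype U]

/-- `z` is a chain modulo two of the link of `σ`: it is supported on simplices with `q` vertices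
(for `q = 0` on the empty one). -/
def IsLinkChain (T : PreAbstractSimplicialComplex U) (σ : Finset U) (q : ℕ)
    (z : Finset U → ZMod 2) : Prop :=
  ∀ τ, z τ ≠ 0 → Disjoint σ τ ∧ σ ∪ τ ∈ T.faces ∧ τ.card = q

/-- `z` is the boundary of a chain of the link of `σ` that is supported on simplices with `q + 1`
vertices. -/
def IsLinkBoundary (T : PreAbstractSimplicialComplex U) (σ : Finset U) (q : ℕ)
    (z : Finset U → ZMod 2) : Prop :=
  ∃ y, IsLinkChain T σ (q + 1) y ∧ boundary2 y = z

/-- The reduced homology modulo two of the link of `σ` is that of a sphere of dimension `m - 1`: it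
is zero in all dimensions except `m - 1`, where it has exactly two elements, the classes of `0` and
`c`. -/
structure SphereLink (T : PreAbstractSimplicialComplex U) (σ : Finset U) (m : ℕ) : Prop where
  exact : ∀ q, q ≠ m → ∀ z, IsLinkChain T σ q z → boundary2 z = 0 → IsLinkBoundary T σ q z
  top : ∃ c, IsLinkChain T σ m c ∧ boundary2 c = 0 ∧ ¬ IsLinkBoundary T σ m c ∧
    ∀ z, IsLinkChain T σ m z → boundary2 z = 0 → IsLinkBoundary T σ m z ∨
      IsLinkBoundary T σ m (z + c)

/-- `T` is a homology manifold of dimension `n` over the field with two elements. -/
def HomologyManifold (T : PreAbstractSimplicialComplex U) (n : ℕ) : Prop :=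
  ∀ σ ∈ T.faces, ∃ m, m + σ.card = n + 1 ∧ SphereLink T σ m

end Pool.Agent.Hyp
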