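import Pool.Agent.Helper78_Hyp.Defs
import Pool.Agent.Helper78_Sph.Bs
import Pool.Agent.Helper30_Cube.Built

/-!
# The Singer conjecture for hyperbolizations of homology manifolds
-/

namespace Pool.Agent.Hyp

open Pool.Agent.Special Pool.Agent.Poly Pool.Agent.Davis Pool.Agent.Helper30L2
open Pool.Agent.Sph Pool.Agent.Sph.H78
open Classical

set_option linter.unusedSectionVars false
set_option linter.unusedVariables false

noncomputable section

variable {U : Type} [Fintype U] {T : PreAbstractSimplicialComplex U}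

/-- The homology of the link in the total form. -/
theorem sp_of_sphereLink {σ : Finset U} (hσ : σ ∈ T.faces) {m : ℕ} (h : SphereLink T σ m) :
    Sp (fun α => Disjoint σ α ∧ σ ∪ α ∈ T.faces) m := by
  apply sp_of_gsp
  obtain ⟨h1, c, hc, hcb, hcy, hcz⟩ := h
  have key : ∀ {q : ℕ} {z : Finset U → ZMod 2}, IsLinkChain T σ q z ↔
      Ct (fun α => Disjoint σ α ∧ σ ∪ α ∈ T.faces) z ∧ ∀ T, z T ≠ 0 → T.card = q := by
    intro q z
    constructor
    · intro h
      exact ⟨fun τ hτ => ⟨(h τ hτ).1, (h τ hτ).2.1⟩, fun τ hτ => (h τ hτ).2.2⟩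
    · rintro ⟨h1, h2⟩ τ hτ
      exact ⟨(h1 τ hτ).1, (h1 τ hτ).2, h2 τ hτ⟩
  rw [key] at hc
  refine ⟨?_, c, hc.1, hc.2, hcb, ?_, ?_⟩
  · intro q hq z hz hz2 hb
    obtain ⟨y, hy, hy2⟩ := h1 q hq z (key.mpr ⟨hz, hz2⟩) hb
    rw [key] at hy
    exact ⟨y, hy.1, hy.2, hy2⟩
  · rintro ⟨y, hy, hy2, hy3⟩
    exact hcy ⟨y, key.mpr ⟨hy, hy2⟩, hy3⟩
  · intro z hz hz2 hb
    rcases hcz z (key.mpr ⟨hz, hz2⟩) hb with ⟨y, hy, hy2⟩ | ⟨y, hy, hy2⟩
    · rw [key] at hy
      exact Or.inl ⟨y, hy.1, hy.2, hy2⟩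
    · rw [key] at hy
      exact Or.inr ⟨y, hy.1, hy.2, hy2⟩

/-- The complex that is the join of the boundary of `σ` and of the link of `σ`. -/
def Kx (T : PreAbstractSimplicialComplex U) (σ τ : Finset U) : Prop :=
  ¬ σ ⊆ τ ∧ σ ∪ τ ∈ T.faces

theorem kx_low {σ : Finset U} (hσ : σ ∈ T.faces) : Low (Kx T σ) := by
  rintro τ ⟨h1, h2⟩ τ' hτ'
  refine ⟨fun h => h1 (h.trans hτ'), ?_⟩
  obtain ⟨x, hx⟩ := (T.isRelLowerSet_faces hσ).1
  exact (T.isRelLowerSet_faces h2).2 (Finset.union_subset_union subset_rfl hτ')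
    ⟨x, Finset.mem_union_left _ hx⟩

theorem lsph_kx {n : ℕ} (h : HomologyManifold T n) {σ : Finset U} (hσ : σ ∈ T.faces) :
    LSph (Kx T σ) ∅ n := by
  obtain ⟨x₀, hx₀⟩ := (T.isRelLowerSet_faces hσ).1
  refine ⟨⟨?_, ?_⟩, ?_⟩
  · intro h1
    exact absurd (h1 hx₀) (Finset.notMem_empty _)
  · rw [Finset.union_empty]
    exact hσ
  · rintro ρ ⟨h1, h2⟩ _
    obtain ⟨m, hm, hs⟩ := h _ h2
    have hsub : ρ ⊆ σ ∪ ρ := Finset.subset_union_right
    have hne : ((σ ∪ ρ) \ ρ).Nonempty := by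
      rw [Finset.sdiff_nonempty]
      intro h3
      exact h1 (Finset.subset_union_left.trans h3)
    have hc1 : ((σ ∪ ρ) \ ρ).card = (σ ∪ ρ).card - ρ.card := Finset.card_sdiff_of_subset hsub
    have hc2 := Finset.card_pos.mpr hne
    have hc3 := Finset.card_le_card hsub
    rw [Finset.card_empty, zero_add]
    refine ⟨by omega, ?_⟩
    have key := sp_xc' (ω := σ ∪ ρ) (σ := (σ ∪ ρ) \ ρ) (L := fun α => (σ ∪ ρ) ∪ α ∈ T.faces)
      (m := m) (by
        intro α hα α' hα'
        exact (T.isRelLowerSet_faces hα).2 (Finset.union_subset_union subset_rfl hα')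
          ⟨x₀, Finset.mem_union_left _ (Finset.mem_union_left _ hx₀)⟩) (by
        intro α b hb hα
        have e : (σ ∪ ρ) ∪ insert b α = (σ ∪ ρ) ∪ α := by
          ext x
          simp only [Finset.mem_union, Finset.mem_insert] at hb ⊢
          constructor
          · rintro (h3 | rfl | h3)
            · exact Or.inl h3
            · exact Or.inl hb
            · exact Or.inr h3
          · rintro (h3 | h3)
            · exact Or.inl h3
            · exact Or.inr (Or.inr h3)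
        change (σ ∪ ρ) ∪ insert b α ∈ T.faces
        rw [e]
        exact hα) (sp_of_sphereLink h2 hs) Finset.sdiff_subset hne
    have e : ((σ ∪ ρ) \ ρ).card - 1 + m = n - ρ.card := by omega
    rw [e] at key
    refine key.congr ?_
    intro α
    unfold Xc lkS Kx
    rw [Finset.sdiff_sdiff_eq_self hsub, ← Finset.union_assoc]
    constructor
    · rintro ⟨h3, h4, h5⟩
      refine ⟨h3, ?_, h5⟩
      intro h6
      apply h4
      intro x hx
      rw [Finset.mem_sdiff, Finset.mem_union] at hx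
      have h7 := hx.1.resolve_right hx.2
      exact (Finset.mem_union.mp (h6 h7)).resolve_left hx.2
    · rintro ⟨h3, h4, h5⟩
      refine ⟨h3, ?_, h5⟩
      intro h6
      apply h4
      intro x hx
      rw [Finset.mem_union]
      by_cases hx' : x ∈ ρ
      · exact Or.inl hx'
      · exact Or.inr (h6 (Finset.mem_sdiff.mpr ⟨Finset.mem_union_left _ hx, hx'⟩))

/-- The Singer conjecture for the hyperbolization of a homology manifold, from the theorem on order
complexes. -/
theorem hyp_singer_of (hfin : FinStmt) [Fintype T.faces] {n : ℕ} (h : HomologyManifold T n) {i : ℕ}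
    (hi : 2 * i ≠ n) : Special.HomologyVanishes (hyp T) i := by
  apply local_vanish
  intro σ
  rw [davis_vanishes_iff]
  -- the poset of the nonempty simplices
  set S : Finset (Finset U) := Finset.univ.filter fun τ => Kx T σ.1 τ ∧ ∅ ⊂ τ with hS
  have hS' : ∀ τ, τ ∈ S ↔ Kx T σ.1 τ ∧ ∅ ⊂ τ := by
    intro τ
    rw [hS, Finset.mem_filter]
    simp
  have h1 := hsp_sd n (Kx T σ.1) ∅ (kx_low σ.2) (lsph_kx h σ.2) S hS'
  have h2 : ∀ ε, Sing ε (comparability (Finset U)) S n := by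
    intro ε
    exact hfin (Finset U) n S h1 ε
  let κ : (hyp T).labels σ ↪ Finset U :=
    ⟨fun D => D.1.1, fun D D' hDD => Subtype.ext (Subtype.ext hDD)⟩
  have hκ : (Finset.univ : Finset ((hyp T).labels σ)).map κ = S := by
    ext τ
    rw [Finset.mem_map, hS']
    constructor
    · rintro ⟨⟨⟨D, hD⟩, ⟨x, hx⟩, hD2⟩, _, rfl⟩
      rw [Finset.mem_sdiff] at hx
      refine ⟨⟨fun h3 => hx.2 (h3 hx.1), hD2⟩, ?_⟩
      rw [Finset.empty_ssubset]
      exact (T.isRelLowerSet_faces hD).1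
    · rintro ⟨⟨h3, h4⟩, h5⟩
      rw [Finset.empty_ssubset] at h5
      have h6 : τ ∈ T.faces := (T.isRelLowerSet_faces h4).2 Finset.subset_union_right h5
      refine ⟨⟨⟨τ, h6⟩, ?_, h4⟩, Finset.mem_univ _, rfl⟩
      rw [Finset.sdiff_nonempty]
      exact h3
  have h3 : ∀ ε, Sing ε ((hyp T).link σ) Finset.univ n := by
    rw [sing_embed κ (Γ₂ := comparability (Finset U)), hκ]
    · exact h2
    · intro D _ D' _
      change (simplexGraph T).Adj D.1 D'.1 ↔ _
      rw [simplexGraph_adj, comp_adj]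
      rfl
  exact (singer_iff'.mpr h3) i hi

end

end Pool.Agent.Hyp
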